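import Mathlib
import Pool.Agent.U943.PG.Main

/-!
# Finitely generated free groups are profinitely rigid among the groups of matrices over commutative
rings which contain the elementary matrices of a subgroup of finite index

Let `n ≥ 2`, let `R` be a commutative ring and `A` a subgroup of finite index of `(R, +)`, let
`L ≤ GL_n(R)` contain the matrices `1 + r e_ij`, `i ≠ j`, `r ∈ A` (for instance any subgroup of
finite index of a group between `E_n(R)` and `GL_n(R)`), and let `Λ` be the quotient of `L` by a group
of scalar matrices. If `Λ` is finitely generated and residually finite and has the same finite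
quotients as the free group of rank `r` then `Λ` is isomorphic to this free group.

Steps of the proof. (1) A free subgroup of finite index `d` gives: for every subgroup `M` of finite index
in `Λ`, every homomorphism of `M` to a finite group `B` and every surjection `E → B` of finite
groups, the homomorphism lifts to `E` on a subgroup of `M` of index at most `d` (`PF/Transfer`).
(2) Commuting elements, `PF/Heis`: this bounds the rank of the images of the
unipotent matrices with one column. So the image of `A` in a quotient ring of `R` of exponent `p` has
at most `p d` elements, and `n = 2` (`PG/Setup`). (3) The library U943/PR/Alg gives `α : R → ℚ` such that a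
power of its kernel is finite; triangular matrices modulo powers of a large prime `p` and
a relation `x y x⁻¹ = y ^ m` show that `α (R) = ℤ` (`PG/Torus`); Nakayama's lemma shows that the
kernel is finite (`PG/Ker`). (4) So `Λ` has a homomorphism to `PGL (2, ℤ)` with finite kernel.
(5) Since `Λ` is residually finite and `d = 1` the group `Λ` is torsion-free: homomorphisms to finite
cyclic groups lift (`PG/TF`). So it is isomorphic to a torsion-free subgroup `K` of `PGL (2, ℤ)`.
(6) Torsion-free subgroups
of `PGL (2, ℤ)` are free (`PG/ModFree`): `PSL (2, ℤ)` is the free product of its subgroups of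
order two and three (ping-pong), it acts on `Q = PGL (2, ℤ) / K`, and the nontrivial elements of the
factors act without fixed points even on the quotient `Y` of `Q` by the reflection; so the cocycle with
the values `y_{g q} y_q⁻¹` in the free product of two copies of the free group on `Y` is
nontrivial (`PG/FreeSub`), it extends to `PGL (2, ℤ)`, and it embeds `K` in a free group. The
homomorphisms to elementary abelian groups give the rank.
-/

set_option autoImplicit false

namespace Pool.Agent.Results.MP_305fdd_al.FreeGroups

open Pool.Agent.U943.PF Pool.Agent.U943.PG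

/-- Finitely generated free groups are profinitely rigid among the quotients, by groups of scalar
matrices, of the groups `L ≤ GL_n(R)` which contain the elementary matrices with coefficients in an
additive subgroup `A` of finite index of `R`. -/
theorem result : ∀ n : ℕ, 2 ≤ n → ∀ (R : Type) [CommRing R] (A : AddSubgroup R), A.index ≠ 0 →
    ∀ L : Subgroup (Matrix.GeneralLinearGroup (Fin n) R),
    (∀ i j : Fin n, i ≠ j → ∀ r ∈ A, ∃ g ∈ L,
      (g : Matrix (Fin n) (Fin n) R) = Matrix.transvection i j r) →
    ∀ (Λ : Type) [Group Λ] (π : L →* Λ), Function.Surjective π →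
    (∀ g : L, π g = 1 → ∃ c : R, ((g : Matrix.GeneralLinearGroup (Fin n) R) :
      Matrix (Fin n) (Fin n) R) = Matrix.scalar (Fin n) c) →
    Group.FG Λ →
    (∀ x : Λ, x ≠ 1 → ∃ H : Subgroup Λ, H.index ≠ 0 ∧ x ∉ H) →
    ∀ r : ℕ, (∀ (Q : Type) [Group Q] [Finite Q],
      (∃ f : Λ →* Q, Function.Surjective f) ↔
      (∃ f : FreeGroup (Fin r) →* Q, Function.Surjective f)) →
    Nonempty (Λ ≃* FreeGroup (Fin r)) := by
  intro n hn R _ A hA L hE Λ _ π hπ hker hfg hRF r hq
  have hAf : A.FiniteIndex := ⟨hA⟩
  have hfin : Finite (R ⧸ A) := AddSubgroup.finite_quotient_of_finiteIndex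
  have hker' : ∀ g : L, π g = 1 → ∃ c : Rˣ, g.1 = sc n c := by
    intro g hg
    obtain ⟨c, hc⟩ := hker g hg
    let i0 : Fin n := ⟨0, by omega⟩
    have h1 : ((g : Matrix.GeneralLinearGroup (Fin n) R) : Matrix (Fin n) (Fin n) R) *
        (((g : Matrix.GeneralLinearGroup (Fin n) R)⁻¹ : Matrix.GeneralLinearGroup (Fin n) R) :
          Matrix (Fin n) (Fin n) R) = 1 := Units.mul_inv _
    rw [hc, Matrix.scalar_apply] at h1
    have h2 := congrFun (congrFun h1 i0) i0
    rw [Matrix.diagonal_mul, Matrix.one_apply_eq] at h2
    exact ⟨Units.mkOfMulEqOne c _ h2, Units.ext hc⟩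
  have helem : ∀ (i j : Fin n) (h : i ≠ j) (r : R), r ∈ A → el h r ∈ L := by
    intro i j h r hr
    obtain ⟨g, hg, hgr⟩ := hE i j h r hr
    have h1 : el h r = g := by
      apply Units.ext
      rw [hgr]
      rfl
    rw [h1]
    exact hg
  exact main_free hn L π r A
    { fgΛ := hfg
      fgΓ := inferInstance
      hq := hq
      free := subgroupIsFreeOfIsFree _
      idx := by rw [Subgroup.index_top]; exact one_ne_zero
      surj := hπ
      ker := hker'
      fin := hfin
      elem := helem } hRF

end Pool.Agent.Results.MP_305fdd_al.FreeGroups
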