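import Mathlib
import Pool.Agent.U943.FP.Main

/-!
# Free products of cyclic groups are profinitely rigid among the groups of matrices of determinant one
over commutative rings which contain the elementary matrices of a subgroup of finite index

Let `n ≥ 2`, let `R` be a commutative ring and `A` a subgroup of finite index of `(R, +)`, let
`L ≤ SL_n(R)` contain the matrices `1 + r e_ij`, `i ≠ j`, `r ∈ A`, and let `Λ` be the quotient of `L` by
a group of scalar matrices. If `Λ` is finitely generated and has the same finite quotients as an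
infinite free product `Γ` of finitely many cyclic groups (finite or infinite) then `Λ` is isomorphic
to `Γ`. The lattices of `PSL (2, ℝ)` which are not cocompact are groups `Γ` of this form.

Steps of the proof. (1) `Γ` has a free subgroup of finite index (`FP/Virt`: the kernel of the projection
to the finite factors is a free product of infinite cyclic groups by the theorem of Kurosh, `FP/Kur`).
(2) Lifting of homomorphisms to finite groups on subgroups of finite index gives `n = 2` and a
homomorphism `R → ℤ` with finite kernel (`PG/Setup`, `PG/Torus`, `PG/Ker`), so `Λ` has a homomorphism `κ` to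
`PSL (2, ℤ)` with finite kernel and is virtually free. (3) The kernel of `κ` is trivial (`FP/Inj`):
an element of prime order `ℓ` of the kernel gives a subgroup of finite index `F × ℤ/ℓ`, `F` free of rank
`k ≥ 1`; the corresponding subgroup of `Γ` is a free product of cyclic groups with the same numbers of
homomorphisms to finite groups `G` (`FP/Virt`). For `G = ℤ/q`, `q` a large prime, this gives `k` infinite
factors, for `G = ℤ/ℓ` a finite factor of order divisible by `ℓ`, and for a group `G` with a
noncentral element of order `ℓ` a contradiction (`FP/Cent`). (4) So `Λ` is a finitely generated subgroup of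
`PSL (2, ℤ) = ℤ/2 * ℤ/3`, and a free product of cyclic groups by the theorem of Kurosh. (5) The numbers of
homomorphisms to the groups `AGL_1(q)`, `q ≡ 1` modulo the orders, are
`(q (q - 1))^r ∏ (1 + (a_i - 1) q)`, and determine the free product (`FP/Agl`, `FP/Count`).
-/

set_option autoImplicit false

namespace Pool.Agent.Results.MP_305fdd_al.FreeProducts

open Pool.Agent.U943.PF Pool.Agent.U943.PG Pool.Agent.U943.FP

/-- Infinite free products of finitely many cyclic groups are profinitely rigid among the quotients,
by groups of scalar matrices, of the groups `L ≤ SL_n(R)` which contain the elementary matrices with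
coefficients in an additive subgroup `A` of finite index of `R`. -/
theorem result : ∀ n : ℕ, 2 ≤ n → ∀ (R : Type) [CommRing R] (A : AddSubgroup R), A.index ≠ 0 →
    ∀ L : Subgroup (Matrix.SpecialLinearGroup (Fin n) R),
    (∀ i j : Fin n, i ≠ j → ∀ r ∈ A, ∃ g ∈ L,
      (g : Matrix (Fin n) (Fin n) R) = Matrix.transvection i j r) →
    ∀ (Λ : Type) [Group Λ] (π : L →* Λ), Function.Surjective π →
    (∀ g : L, π g = 1 → ∃ c : R, ((g : Matrix.SpecialLinearGroup (Fin n) R) :
      Matrix (Fin n) (Fin n) R) = Matrix.scalar (Fin n) c) →
    Group.FG Λ →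
    ∀ (s : ℕ) (a : Fin s → ℕ), (∀ i, a i ≠ 1) →
    Infinite (Monoid.CoprodI fun i => Multiplicative (ZMod (a i))) →
    (∀ (Q : Type) [Group Q] [Finite Q],
      (∃ f : Λ →* Q, Function.Surjective f) ↔
      (∃ f : (Monoid.CoprodI fun i => Multiplicative (ZMod (a i))) →* Q,
        Function.Surjective f)) →
    Nonempty (Λ ≃* Monoid.CoprodI fun i => Multiplicative (ZMod (a i))) := by
  intro n hn R _ A hA L hE Λ _ π hπ hker hfg s a ha hinf hq
  have hAf : A.FiniteIndex := ⟨hA⟩
  have hfin : Finite (R ⧸ A) := AddSubgroup.finite_quotient_of_finiteIndex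
  let τ : Matrix.SpecialLinearGroup (Fin n) R →* Matrix.GeneralLinearGroup (Fin n) R :=
    Matrix.SpecialLinearGroup.toGL
  have hτv : ∀ g, ((τ g : Matrix.GeneralLinearGroup (Fin n) R) : Matrix (Fin n) (Fin n) R) =
      (g : Matrix (Fin n) (Fin n) R) := fun g => rfl
  have hτ : Function.Injective τ := by
    intro g h hgh
    apply Subtype.ext
    rw [← hτv, hgh, hτv]
  let e : L ≃* L.map τ := L.equivMapOfInjective τ hτ
  have he : ∀ g : L.map τ, τ (e.symm g : L) = g := by
    intro g
    obtain ⟨g, rfl⟩ := e.surjective g
    rw [MulEquiv.symm_apply_apply]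
    rfl
  have hcyc : ∀ i, IsCyclic (Multiplicative (ZMod (a i))) := fun i => inferInstance
  have hnt : ∀ i, Nontrivial (Multiplicative (ZMod (a i))) := by
    intro i
    have : Nontrivial (ZMod (a i)) := by
      rcases Nat.eq_zero_or_pos (a i) with h | h
      · rw [h]
        exact inferInstanceAs (Nontrivial ℤ)
      · have h1 : Fact (1 < a i) := ⟨by have := ha i; omega⟩
        exact ZMod.nontrivial _
    exact inferInstanceAs (Nontrivial (ZMod (a i)))
  obtain ⟨Δ, hΔ, hΔf⟩ := virt_free hcyc
  have hker' : ∀ g : L.map τ, (π.comp e.symm.toMonoidHom) g = 1 → ∃ c : Rˣ, g.1 = sc n c := by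
    intro g hg
    obtain ⟨c, hc⟩ := hker (e.symm g) hg
    let i0 : Fin n := ⟨0, by omega⟩
    have hgc : ((g : Matrix.GeneralLinearGroup (Fin n) R) : Matrix (Fin n) (Fin n) R) =
        Matrix.scalar (Fin n) c := by
      rw [← hc, ← hτv, he]
    have h1 : ((g : Matrix.GeneralLinearGroup (Fin n) R) : Matrix (Fin n) (Fin n) R) *
        (((g : Matrix.GeneralLinearGroup (Fin n) R)⁻¹ : Matrix.GeneralLinearGroup (Fin n) R) :
          Matrix (Fin n) (Fin n) R) = 1 := Units.mul_inv _
    rw [hgc, Matrix.scalar_apply] at h1
    have h2 := congrFun (congrFun h1 i0) i0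
    rw [Matrix.diagonal_mul, Matrix.one_apply_eq] at h2
    exact ⟨Units.mkOfMulEqOne c _ h2, Units.ext hgc⟩
  have helem : ∀ (i j : Fin n) (h : i ≠ j) (r : R), r ∈ A → el h r ∈ L.map τ := by
    intro i j h r hr
    obtain ⟨g, hg, hgr⟩ := hE i j h r hr
    have h1 : el h r = τ g := by
      apply Units.ext
      rw [hτv, hgr]
      rfl
    rw [h1]
    exact Subgroup.mem_map_of_mem τ hg
  have hdet : ∀ g ∈ L.map τ, (g : Matrix (Fin n) (Fin n) R).det = 1 := by
    rintro _ ⟨g, hg, rfl⟩
    exact g.2
  exact main_fp hn (L.map τ) hdet (π.comp e.symm.toMonoidHom) hcyc hnt Δ A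
    { fgΛ := hfg
      fgΓ := fg_coprodI hcyc
      hq := hq
      free := hΔf
      idx := hΔ
      surj := hπ.comp e.symm.surjective
      ker := hker'
      fin := hfin
      elem := helem }

end Pool.Agent.Results.MP_305fdd_al.FreeProducts
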