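import Mathlib
import Pool.Agent.U943.PF.Main

/-!
# The modular group is profinitely rigid among the groups of matrices over commutative rings which
contain the elementary matrices, modulo scalars

The lattice `PSL (2, ℤ)` of `PSL (2, ℝ)` is compared with the following groups `Λ`: let `n ≥ 2`, let
`R` be a commutative ring, let `E_n(R) ≤ L ≤ GL_n(R)`, and let `Λ` be the quotient of `L` by a
group of scalar matrices (for instance a group between `E_n(R)` and `GL_n(R)`, or between
`PE_n(R)` and `PGL_n(R)`). If `Λ` is finitely generated and residually finite and has the same finite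
quotients as `PSL (2, ℤ)` then `n = 2`, `R` is isomorphic to `ℤ` and `Λ` to `PSL (2, ℤ)`.

Steps of the proof. (1) `PSL (2, ℤ)` has a free subgroup of finite index `d`
(library Helper418_IRS/IR15). It follows (`Transfer`) that for every subgroup `M` of finite index in `Λ`, every
homomorphism of `M` to a finite group `A` and every surjection `E → A` of finite groups the
homomorphism lifts to `E` on a subgroup of `M` of index at most `d`. (2) This is applied (`Heis`) to
`A = (ℤ/p)^f` and the central extension `E = A × (A ⊗ A)`: if commuting elements of `M` generate the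
image in `A` then `p ^ f ≤ p d`, and if `x y x⁻¹ = y ^ m`, `m ≡ 1` mod `p`, `p > d`, then the images
of `x` and `y` are dependent. (3) The unipotent matrices with one column (`Mat`) show that a finite
quotient ring of `R` of exponent `p` has at most `p d` elements, and that `n = 2`. So (`Ring`) the
quotients of `R` by primes which contain a prime number are finite and `R` has at most one homomorphism to
the algebraic closure of `ℤ/p` for `p > d`. With the library U943/PR/Alg this gives a homomorphism
`α : R → ℚ` such that a power of its kernel is finite. (4) If a prime `ℓ` were invertible in `α(R)`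
there would be an idempotent `e ∈ ℓ ^ k R` with `α(e) = 1`; the matrices `diag(u, u⁻¹)`,
`u = ℓ ^ k e + 1 - e`, and `1 + e e₁₂` and triangular matrices modulo a power of `p` contradict (2) (`Borel`,
`Torus`). So `α(R) = ℤ`. (5) The abelianization shows that the matrices have determinant one after
reduction to `ℤ`, hence `Λ` maps onto `PSL (2, ℤ)`, and a surjection of a finitely generated residually finite
group onto a group with the same finite quotients is injective (`Main`).
-/

set_option autoImplicit false

namespace Pool.Agent.Results.MP_305fdd_al.ModularGroup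

open Pool.Agent.U943.PF

/-- `PSL (2, ℤ)` is profinitely rigid among the quotients, by groups of scalar matrices, of the
groups between `E_n(R)` and `GL_n(R)`, for all commutative rings `R` and all `n ≥ 2`. -/
theorem result : ∀ n : ℕ, 2 ≤ n → ∀ (R : Type) [CommRing R]
    (L : Subgroup (Matrix.GeneralLinearGroup (Fin n) R)),
    (∀ i j : Fin n, i ≠ j → ∀ r : R, ∃ g ∈ L,
      (g : Matrix (Fin n) (Fin n) R) = Matrix.transvection i j r) →
    ∀ (Λ : Type) [Group Λ] (π : L →* Λ), Function.Surjective π →
    (∀ g : L, π g = 1 → ∃ c : R, ((g : Matrix.GeneralLinearGroup (Fin n) R) :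
      Matrix (Fin n) (Fin n) R) = Matrix.scalar (Fin n) c) →
    Group.FG Λ →
    (∀ x : Λ, x ≠ 1 → ∃ H : Subgroup Λ, H.index ≠ 0 ∧ x ∉ H) →
    (∀ (Q : Type) [Group Q] [Finite Q],
      (∃ f : Λ →* Q, Function.Surjective f) ↔
      (∃ f : Matrix.ProjectiveSpecialLinearGroup (Fin 2) ℤ →* Q, Function.Surjective f)) →
    n = 2 ∧ Nonempty (R ≃+* ℤ) ∧
      Nonempty (Λ ≃* Matrix.ProjectiveSpecialLinearGroup (Fin 2) ℤ) := by
  intro n hn R _ L hE Λ _ π hπ hker hfg hRF hq
  refine main_psl hn L π hπ (fun g hg => ?_) (fun i j h r => ?_) hfg hRF hq
  · obtain ⟨c, hc⟩ := hker g hg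
    let i0 : Fin n := ⟨0, by omega⟩
    have h1 : ((g : Matrix.GeneralLinearGroup (Fin n) R) : Matrix (Fin n) (Fin n) R) *
        (((g : Matrix.GeneralLinearGroup (Fin n) R)⁻¹ : Matrix.GeneralLinearGroup (Fin n) R) :
          Matrix (Fin n) (Fin n) R) = 1 := Units.mul_inv _
    rw [hc, Matrix.scalar_apply] at h1
    have h2 := congrFun (congrFun h1 i0) i0
    rw [Matrix.diagonal_mul, Matrix.one_apply_eq] at h2
    exact ⟨Units.mkOfMulEqOne c _ h2, Units.ext hc⟩
  · obtain ⟨g, hg, hgr⟩ := hE i j h r
    have : el h r = g := by
      apply Units.ext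
      rw [hgr]
      rfl
    rw [this]
    exact hg

end Pool.Agent.Results.MP_305fdd_al.ModularGroup
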