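import Mathlib
import Pool.Agent.U943.SF.Main

/-!
# Groups of matrices with the same finite quotients as a cocompact lattice of `PSL (2, ℝ)`

Let `n ≥ 2`, let `R` be a commutative ring and `A` a subgroup of finite index of `(R, +)`, let
`L ≤ GL_n(R)` contain the matrices `1 + r e_ij`, `i ≠ j`, `r ∈ A` (for instance any subgroup of
finite index of a group between `E_n(R)` and `GL_n(R)`), and let `Λ` be a finitely generated quotient
of `L` by a group of scalar matrices. Then `Λ` does not have the same finite quotients as a finitely
generated group `Γ` which contains the fundamental group `S` of a closed orientable surface of genus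
`g ≥ 2` as a subgroup of finite index. All cocompact lattices of `PSL (2, ℝ)` are such groups `Γ`
(Selberg).

Steps of the proof. (1) Obstructions (`SF/Cocy`, `SF/Surf`). Let `T ≤ S` be a subgroup of finite
index, `φ : T → B` and let `E → B` be a central extension whose kernel `C` has exponent `p`. In the
preimage of `T` in the free group `F` of rank `2 g` the homomorphism lifts; the obstruction is the
function `t ↦ (value at t r t⁻¹)` on `F / T` with values in `C`, where `r` is the relator. Cocycles of
`F` with values in the functions `Y → C`, for a transitive `F`-set `Y`, take at `r` all values with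
product one (the main lemma, by induction on the genus). So `φ` lifts on each subgroup of `T` whose
index is divisible by `p`. (2) Subgroups of finite index of `S` have at least `p ^ 3` homomorphisms to
`ℤ / p` (`SF/Hom`), so one of them kills two given elements. It follows (`SF/Trans`) that for a group
`Λ` with the same finite quotients as `Γ`, every `M ≤ Λ` of finite index has a subgroup `M'` of
index at most `d = [Γ : S]` such that for all `x, y ∈ M'` the homomorphisms `M → B` lift to `E` on a
subgroup which contains `x` and `y` (`SF/Lifts`). (3) With the Heisenberg groups modulo `p` this bounds the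
ranks of the images of commuting elements, hence `n = 2` and the finite quotient rings of `R` are small
(`SF/Setup`); triangular matrices modulo powers of primes and Baumslag-Solitar relations show that
`R` is an extension of `ℤ` by a finite ideal (`SF/Torus`, `SF/Ker`). So `Λ` is virtually free. (4) A
group with a free subgroup of index `k` does not have the same finite quotients as `Γ` (`SF/Contr`):
for a prime `p > k` a homomorphism `S → (ℤ / p) ^ 2` of cup product one would lift to the Heisenberg group
on a subgroup of index at most `k`, and the transfer of the obstruction is its index, not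
divisible by `p`.
-/

set_option autoImplicit false

namespace Pool.Agent.Results.MP_305fdd_al.SurfaceGroups

open Pool.Agent.U943.PF hiding rank_le bs
open Pool.Agent.U943.SF

/-- No finitely generated quotient, by scalar matrices, of a group `L ≤ GL_n(R)` which contains the
elementary matrices with coefficients in an additive subgroup `A` of finite index of `R` has the same
finite quotients as a finitely generated group `Γ` in which the fundamental group of a closed orientable
surface of genus `g ≥ 2` is a subgroup of finite index. -/
theorem result : ∀ n : ℕ, 2 ≤ n → ∀ (R : Type) [CommRing R] (A : AddSubgroup R), A.index ≠ 0 →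
    ∀ L : Subgroup (Matrix.GeneralLinearGroup (Fin n) R),
    (∀ i j : Fin n, i ≠ j → ∀ r ∈ A, ∃ g ∈ L,
      (g : Matrix (Fin n) (Fin n) R) = Matrix.transvection i j r) →
    ∀ (Λ : Type) [Group Λ] (π : L →* Λ), Function.Surjective π →
    (∀ g : L, π g = 1 → ∃ c : R, ((g : Matrix.GeneralLinearGroup (Fin n) R) :
      Matrix (Fin n) (Fin n) R) = Matrix.scalar (Fin n) c) →
    Group.FG Λ →
    ∀ (g : ℕ), 2 ≤ g → ∀ (Γ : Type) [Group Γ], Group.FG Γ →
    ∀ ε : PresentedGroup ({(List.ofFn fun i : Fin g =>
        (FreeGroup.of (Sum.inl i) : FreeGroup (Fin g ⊕ Fin g)) * FreeGroup.of (Sum.inr i) *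
          (FreeGroup.of (Sum.inl i))⁻¹ * (FreeGroup.of (Sum.inr i))⁻¹).prod} :
        Set (FreeGroup (Fin g ⊕ Fin g))) →* Γ,
    Function.Injective ε → ε.range.index ≠ 0 →
    ¬ ∀ (Q : Type) [Group Q] [Finite Q],
      (∃ f : Λ →* Q, Function.Surjective f) ↔ (∃ f : Γ →* Q, Function.Surjective f) := by
  intro n hn R _ A hA L hE Λ _ π hπ hker hfg g hg Γ _ hfgΓ
  have hrr : (List.ofFn fun i : Fin g =>
        (FreeGroup.of (Sum.inl i) : FreeGroup (Fin g ⊕ Fin g)) * FreeGroup.of (Sum.inr i) *
          (FreeGroup.of (Sum.inl i))⁻¹ * (FreeGroup.of (Sum.inr i))⁻¹).prod = rr g := by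
    rw [List.ofFn_eq_map]
    rfl
  rw [hrr]
  intro ε hε h0 hq
  have hAf : A.FiniteIndex := ⟨hA⟩
  have hfin : Finite (R ⧸ A) := AddSubgroup.finite_quotient_of_finiteIndex
  have hker' : ∀ g : L, π g = 1 → ∃ c : Rˣ, g.1 = sc n c := by
    intro g hg
    obtain ⟨c, hc⟩ := hker g hg
    let i0 : Fin n := ⟨0, by omega⟩
    have h1 : ((g : Matrix.GeneralLinearGroup (Fin n) R) : Matrix (Fin n) (Fin n) R) *
        (((g : Matrix.GeneralLinearGroup (Fin n) R)⁻¹ : Matrix.GeneralLinearGroup (Fin n) R) :
          Matrix (Fin n) (Fin n) R) = 1 := Units.mul_inv _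
    rw [hc, Matrix.scalar_apply] at h1
    have h2 := congrFun (congrFun h1 i0) i0
    rw [Matrix.diagonal_mul, Matrix.one_apply_eq] at h2
    exact ⟨Units.mkOfMulEqOne c _ h2, Units.ext hc⟩
  have helem : ∀ (i j : Fin n) (h : i ≠ j) (r : R), r ∈ A → el h r ∈ L := by
    intro i j h r hr
    obtain ⟨g, hg, hgr⟩ := hE i j h r hr
    have h1 : el h r = g := by
      apply Units.ext
      rw [hgr]
      rfl
    rw [h1]
    exact hg
  obtain ⟨K, hK, hKf⟩ := main_lifts hn L π ε.range.index A
    { fgΛ := hfg
      lf := lifts_of_surface hfg hfgΓ hq hg ε hε h0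
      surj := hπ
      ker := hker'
      fin := hfin
      elem := helem }
  obtain ⟨g', rfl⟩ : ∃ g', g = g' + 1 := ⟨g - 1, by omega⟩
  exact free_ne_surface hfg hfgΓ hq K hK ε hε h0

end Pool.Agent.Results.MP_305fdd_al.SurfaceGroups
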